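import Mathlib
import Pool.Agent.Helper28.CP.WeakFinal

set_option autoImplicit false

namespace Pool.Agent.Results.MP_8c7236_co.ConvexCurve

/-- The points `x i` lie in one plane of 3-space, on the boundary of one convex set of this plane:
for an orthonormal pair `e`, `g` and an origin `o`, every `x i` is `o + s i • e + t i • g`, and all
the coordinate pairs `(s i, t i)` are in the frontier of one convex subset `K` of the coordinate
plane. -/
def OnConvexCurve {n : ℕ} (x : Fin n → Fin 3 → ℝ) : Prop :=
  ∃ (o e g : Fin 3 → ℝ) (K : Set (ℝ × ℝ)) (s t : Fin n → ℝ),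
    ∑ d, e d ^ 2 = 1 ∧ ∑ d, g d ^ 2 = 1 ∧ ∑ d, e d * g d = 0 ∧ Convex ℝ K ∧
    (∀ i, (s i, t i) ∈ frontier K) ∧ ∀ i d, x i d = o d + s i * e d + t i * g d

/-- The lower bound of Atiyah and Sutcliffe for every finite set of points on the boundary of a
planar convex set (for instance the vertices of a convex polygon). The spinors `(a i j, b i j)` of
the directions are arbitrary unit ones. -/
theorem result :
    ∀ (n : ℕ) (x : Fin n → Fin 3 → ℝ), Function.Injective x → OnConvexCurve x →
    ∀ (a b : Fin n → Fin n → ℂ),
      (∀ i j : Fin n, i ≠ j →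
        (![2 * (a i j * (starRingEnd ℂ) (b i j)).re,
           2 * (a i j * (starRingEnd ℂ) (b i j)).im,
           Complex.normSq (a i j) - Complex.normSq (b i j)] : Fin 3 → ℝ) =
        (fun c : Fin 3 => (x j c - x i c) / Real.sqrt (∑ d : Fin 3, (x j d - x i d) ^ 2))) →
      1 ≤ ‖(Matrix.of (fun (i k : Fin n) =>
            (∏ j ∈ Finset.univ.erase i,
              (Polynomial.C (a i j) * Polynomial.X +
                Polynomial.C (b i j))).coeff (k : ℕ))).det‖ := by
  intro n x hinj hcurve a b hab
  obtain ⟨o, e, g, K, s, t, he, hg, heg, hK, hst, hx⟩ := hcurve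
  have hemb : x = Pool.Agent.Helper28.CP.emb o e g (fun i => (s i, t i)) := by
    funext i d
    rw [hx]
    rfl
  have hO : Pool.Agent.Helper28.CP.Ortho e g := ⟨he, hg, heg⟩
  have hp : Function.Injective (fun i => (s i, t i)) := by
    rw [hemb] at hinj
    exact (Pool.Agent.Helper28.CP.emb_injective n o e g hO _).mp hinj
  have key := Pool.Agent.Helper28.CP.frontier_final n o e g hO (fun i => (s i, t i)) hp K hK hst
  rw [← hemb] at key
  exact key a b hab

end Pool.Agent.Results.MP_8c7236_co.ConvexCurve
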