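import Mathlib
import Pool.Agent.Helper28.NC.Geo

set_option autoImplicit false

namespace Pool.Agent.Results.MP_8c7236_co.NearCollinear

/-- The lower bound of Atiyah and Sutcliffe near the collinear configurations, for every number of
points: for each `n` there is `δ > 0` such that for all `n` distinct points `x i` of 3-space all of
whose differences `w = x j - x i` satisfy `|w|² ≤ (1 + δ) ⟨w, e⟩²` for one unit vector `e` (all
lines through two of the points make a small angle with `e`), the normalized determinant has
absolute value at least `1`, and it has absolute value `1` only if the points are on a line.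
The spinors `(a i j, b i j)` of the directions are arbitrary unit ones. -/
theorem result :
    ∀ n : ℕ, ∃ δ : ℝ, 0 < δ ∧
    ∀ x : Fin n → Fin 3 → ℝ, Function.Injective x →
    ∀ e : Fin 3 → ℝ, ∑ d, e d ^ 2 = 1 →
    (∀ i j : Fin n, ∑ d, (x j d - x i d) ^ 2 ≤ (1 + δ) * (∑ d, (x j d - x i d) * e d) ^ 2) →
    ∀ a b : Fin n → Fin n → ℂ,
      (∀ i j : Fin n, i ≠ j →
        (![2 * (a i j * (starRingEnd ℂ) (b i j)).re,
           2 * (a i j * (starRingEnd ℂ) (b i j)).im,
           Complex.normSq (a i j) - Complex.normSq (b i j)] : Fin 3 → ℝ) =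
        (fun c : Fin 3 => (x j c - x i c) / Real.sqrt (∑ d : Fin 3, (x j d - x i d) ^ 2))) →
      1 ≤ ‖(Matrix.of (fun (i k : Fin n) =>
            (∏ j ∈ Finset.univ.erase i,
              (Polynomial.C (a i j) * Polynomial.X +
                Polynomial.C (b i j))).coeff (k : ℕ))).det‖ ∧
      (‖(Matrix.of (fun (i k : Fin n) =>
            (∏ j ∈ Finset.univ.erase i,
              (Polynomial.C (a i j) * Polynomial.X +
                Polynomial.C (b i j))).coeff (k : ℕ))).det‖ = 1 →
        Collinear ℝ (Set.range x)) :=
  Pool.H28.NC.geo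

end Pool.Agent.Results.MP_8c7236_co.NearCollinear
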