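import Mathlib
import Pool.Agent.Helper28.CP.PolyStrict
import Pool.Agent.Helper28.CP.Near
import Pool.Agent.Helper28.CP.Coll

set_option autoImplicit false

namespace Pool.Agent.Results.MP_8c7236_co.NearConvexPolygon

/-- The points `x i` are the vertices of a strictly convex polygon in some plane of 3-space: for an
orthonormal pair `e`, `g` and an origin `o`, every `x i` is `o + s i • e + t i • g`, and no
coordinate pair `(s i, t i)` is in the convex hull of the others. -/
def IsConvexPolygon {n : ℕ} (x : Fin n → Fin 3 → ℝ) : Prop :=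
  ∃ (o e g : Fin 3 → ℝ) (s t : Fin n → ℝ),
    ∑ d, e d ^ 2 = 1 ∧ ∑ d, g d ^ 2 = 1 ∧ ∑ d, e d * g d = 0 ∧
    ConvexIndependent ℝ (fun i => (s i, t i)) ∧ ∀ i d, x i d = o d + s i * e d + t i * g d

/-- Every configuration of points of 3-space that is close enough to the vertices of a strictly
convex polygon satisfies the strict lower bound of Atiyah and Sutcliffe. The spinors
`(a i j, b i j)` of the directions are arbitrary unit ones. -/
theorem result :
    ∀ (n : ℕ), 3 ≤ n → ∀ x : Fin n → Fin 3 → ℝ, IsConvexPolygon x →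
    ∃ δ : ℝ, 0 < δ ∧ ∀ y : Fin n → Fin 3 → ℝ, (∀ i d, |y i d - x i d| < δ) →
    ∀ (a b : Fin n → Fin n → ℂ),
      (∀ i j : Fin n, i ≠ j →
        (![2 * (a i j * (starRingEnd ℂ) (b i j)).re,
           2 * (a i j * (starRingEnd ℂ) (b i j)).im,
           Complex.normSq (a i j) - Complex.normSq (b i j)] : Fin 3 → ℝ) =
        (fun c : Fin 3 => (y j c - y i c) / Real.sqrt (∑ d : Fin 3, (y j d - y i d) ^ 2))) →
      1 < ‖(Matrix.of (fun (i k : Fin n) =>
            (∏ j ∈ Finset.univ.erase i,
              (Polynomial.C (a i j) * Polynomial.X +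
                Polynomial.C (b i j))).coeff (k : ℕ))).det‖ := by
  intro n hn x hx
  obtain ⟨o, e, g, s, t, he, hg, heg, hst, hx⟩ := hx
  have hemb : x = Pool.Agent.Helper28.CP.emb o e g (fun i => (s i, t i)) := by
    funext i d
    rw [hx]
    rfl
  have hO : Pool.Agent.Helper28.CP.Ortho e g := ⟨he, hg, heg⟩
  have hinj : Function.Injective x := by
    rw [hemb]
    exact (Pool.Agent.Helper28.CP.emb_injective n o e g hO _).mpr hst.injective
  have key := Pool.Agent.Helper28.CP.strict_final1 n hn o e g hO (fun i => (s i, t i)) hst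
  rw [← hemb] at key
  exact Pool.Agent.Helper28.CP.near n x hinj key

end Pool.Agent.Results.MP_8c7236_co.NearConvexPolygon
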