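import Mathlib
import Pool.Agent.Helper29.TH8.Main
import Pool.Agent.Helper29.TH8.Indep

set_option autoImplicit false

namespace Pool.Agent.Results.MP_8c7236_co.ThinTriangles

/-- The lower bound of Atiyah and Sutcliffe for configurations without fat triangles, for every number
of points: for each `n` there is `δ > 0` such that for all `n` distinct points `x i` of 3-space with
the property that every triangle formed by three of the points has an angle whose cosine is at least
`1 - δ`, the normalized determinant has absolute value at least `1`, and it has absolute value `1` only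
if the points are on a line. The spinors `(a i j, b i j)` of the directions are arbitrary unit ones. -/
theorem result :
    ∀ n : ℕ, ∃ δ : ℝ, 0 < δ ∧
    ∀ x : Fin n → Fin 3 → ℝ, Function.Injective x →
    (∀ i j k : Fin n, i ≠ j → j ≠ k → i ≠ k →
      (1 - δ) * (Real.sqrt (∑ d, (x j d - x i d) ^ 2) * Real.sqrt (∑ d, (x k d - x i d) ^ 2)) ≤
          ∑ d, (x j d - x i d) * (x k d - x i d) ∨
      (1 - δ) * (Real.sqrt (∑ d, (x i d - x j d) ^ 2) * Real.sqrt (∑ d, (x k d - x j d) ^ 2)) ≤
          ∑ d, (x i d - x j d) * (x k d - x j d) ∨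
      (1 - δ) * (Real.sqrt (∑ d, (x i d - x k d) ^ 2) * Real.sqrt (∑ d, (x j d - x k d) ^ 2)) ≤
          ∑ d, (x i d - x k d) * (x j d - x k d)) →
    ∀ a b : Fin n → Fin n → ℂ,
      (∀ i j : Fin n, i ≠ j →
        (![2 * (a i j * (starRingEnd ℂ) (b i j)).re,
           2 * (a i j * (starRingEnd ℂ) (b i j)).im,
           Complex.normSq (a i j) - Complex.normSq (b i j)] : Fin 3 → ℝ) =
        (fun c : Fin 3 => (x j c - x i c) / Real.sqrt (∑ d : Fin 3, (x j d - x i d) ^ 2))) →
      1 ≤ ‖(Matrix.of (fun (i k : Fin n) =>
            (∏ j ∈ Finset.univ.erase i,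
              (Polynomial.C (a i j) * Polynomial.X +
                Polynomial.C (b i j))).coeff (k : ℕ))).det‖ ∧
      (‖(Matrix.of (fun (i k : Fin n) =>
            (∏ j ∈ Finset.univ.erase i,
              (Polynomial.C (a i j) * Polynomial.X +
                Polynomial.C (b i j))).coeff (k : ℕ))).det‖ = 1 →
        Collinear ℝ (Set.range x)) := by
  intro n
  obtain ⟨δ, hδ, H⟩ := Pool.Agent.Helper29.TH8.thin_main n
  refine ⟨δ, hδ, fun x hx ht a b hab => ?_⟩
  have h := H x hx ht
  rw [Pool.Agent.Helper29.TH8.DX_hopf n x hx a b hab]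
  exact h

end Pool.Agent.Results.MP_8c7236_co.ThinTriangles
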